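import Pool.Agent.H555R2.E12.PairG

/-!
Local finiteness of groups whose elements have order 3 or a power of 2 (in particular of groups
with spectrum `{1, 2, 3, 4, 8, 16}`) under a condition on pairs of elements of order 3.

Outline of the proof.  Let `a`, `b` be elements of order 3 with `ab` and `a⁻¹b` not of order
dividing 3; then both are 2-elements.  If their orders divide 4, then `⟨a, b⟩` is a quotient of
the simple group of order 168, a contradiction.  Let `j` be the involution in the group generated
by `ab`.  Under the last form of the hypothesis coset enumerations and a case tree of coset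
enumerations (replayed by the kernel) give a contradiction.  So for all such pairs `(ab)^3 = 1` or
`(a⁻¹b)^3 = 1`.  Let `T` be the set of elements of order 3 and `M` the normal subgroup of
all `g` with `gT = T`.  `M` is a 2-group; every involution of `M` commutes with its conjugates
under `M`, and it follows that `M` is locally finite.  In `G/M` the same subgroup is trivial, and
further coset enumerations show that there is no involution `e` of `G/M` with `(ex)^3 = 1` for an
element `x` of order 3; it follows that products of elements of order 3 of `G/M` have order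
dividing 3.  If `M` is not trivial then the elements of order 3 of `G/M` generate a group of order
3, and `G/M` has order at most 6.  If `M` is trivial, the elements of order 3 form with 1 a normal
subgroup `K`, locally finite by Burnside's theorem, and `G/K` is a 2-group with at most one
involution; finitely generated groups of this kind are finite.
-/

universe u

namespace Pool.Agent.Results.MP_6e99db_al.PairsOfOrderThree

open H555.E12 in
/-- Let `G` be a group in which every element has order dividing 3 or a power of 2, with at least
one element of order 3.  Suppose that for all `a`, `b` with `a ^ 3 = 1` and `b ^ 3 = 1` one of the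
following holds: `(a * b) ^ 3 = 1`; `(a⁻¹ * b) ^ 3 = 1`; `(a * b) ^ 4 = 1` and
`(a⁻¹ * b) ^ 4 = 1`; in the subgroup generated by `a` and `b` all products `t * v` with
`t ^ 2 = 1` and `v ^ 3 = 1` satisfy `(t * v) ^ 3 = 1` or `(t * v) ^ 4 = 1`.  Then every finitely
generated subgroup of `G` is finite. -/
theorem result (G : Type u) [Group G]
    (hO : ∀ g : G, g ^ 3 = 1 ∨ ∃ i : ℕ, g ^ (2 ^ i) = 1)
    (hT : ∃ x : G, x ^ 3 = 1 ∧ x ≠ 1)
    (h : ∀ a b : G, a ^ 3 = 1 → b ^ 3 = 1 → (a * b) ^ 3 = 1 ∨ (a⁻¹ * b) ^ 3 = 1 ∨
      ((a * b) ^ 4 = 1 ∧ (a⁻¹ * b) ^ 4 = 1) ∨
      ∀ t ∈ Subgroup.closure {a, b}, ∀ v ∈ Subgroup.closure {a, b}, t ^ 2 = 1 → v ^ 3 = 1 →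
        (t * v) ^ 3 = 1 ∨ (t * v) ^ 4 = 1)
    (F : Subgroup G) (hF : F.FG) : Finite F :=
  no6_sub hO (HA_of_pairs hO h) hT F hF

end Pool.Agent.Results.MP_6e99db_al.PairsOfOrderThree
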